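import Pool.Agent.H64.XL.Defs
import Pool.Agent.H65.UB.Gdf
import Pool.Agent.H56.UD.DB

/-!
# [DIM X] SZ: the maps `BB`, growth of univalent functions

`bl_lt`, `bb_lt`, `bb_diff`: `Bl`, `BB` map the disc to itself, holomorphic. `bl_bd`: `1 - ‖Bl 1 α x‖² = (1 - ‖α‖²)(1 - ‖x²‖²)/‖1 + conj α x²‖²`.
`bb_ex`: `‖BB s x‖ ≤ r` implies `‖x‖ ≤ ρ < 1` (induction on `s`; the radii of the `α i` come from `‖BB i (α i)‖ ≤ θ`).
`gr`: growth of univalent functions on `closedBall 0 ρ` (`chain`).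
-/

set_option autoImplicit false

open Filter Topology Metric Set

namespace Pool.Agent.H3.SZ

open Pool.Agent.H64.XL (b1)
open Pool.Agent.H66.GEO (Bl BB)

theorem sq_lt {x : ℂ} (hx : ‖x‖ < 1) : ‖x ^ 2‖ < 1 := by
  rw [norm_pow]
  exact pow_lt_one₀ (norm_nonneg _) hx two_ne_zero

theorem bl_eq (α x : ℂ) : Bl 1 α x = (x ^ 2 + α) / (1 + (starRingEnd ℂ) α * x ^ 2) := by
  unfold Bl
  rw [one_mul]

theorem bl_lt {α x : ℂ} (ha : ‖α‖ < 1) (hx : ‖x‖ < 1) : ‖Bl 1 α x‖ < 1 := by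
  rw [bl_eq]
  exact Pool.Agent.H56.UD.mob_lt ha (sq_lt hx)

theorem bl_den {α x : ℂ} (ha : ‖α‖ < 1) (hx : ‖x‖ < 1) : 1 + (starRingEnd ℂ) α * x ^ 2 ≠ 0 := by
  intro h0
  have h1 : ‖(starRingEnd ℂ) α * x ^ 2‖ = 1 := by
    have : (starRingEnd ℂ) α * x ^ 2 = -1 := by linear_combination h0
    rw [this]; simp
  rw [norm_mul, RCLike.norm_conj] at h1
  have h2 := sq_lt hx
  nlinarith [norm_nonneg α, norm_nonneg (x ^ 2)]

theorem bl_diff {α : ℂ} (ha : ‖α‖ < 1) : DifferentiableOn ℂ (Bl 1 α) (ball 0 1) := by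
  have h1 : ∀ x ∈ ball (0 : ℂ) 1, 1 + (starRingEnd ℂ) α * x ^ 2 ≠ 0 := fun x hx =>
    bl_den ha (mem_ball_zero_iff.1 hx)
  have h2 : DifferentiableOn ℂ (fun x => 1 * (x ^ 2 + α) / (1 + (starRingEnd ℂ) α * x ^ 2)) (ball 0 1) := by
    refine DifferentiableOn.div ?_ ?_ h1
    · fun_prop
    · fun_prop
  exact h2

theorem bb_succ (α : ℕ → ℂ) (s : ℕ) (x : ℂ) : BB b1 α (s + 1) x = BB b1 α s (Bl 1 (α s) x) := rfl

theorem bb_lt {α : ℕ → ℂ} {s : ℕ} (ha : ∀ i < s, ‖α i‖ < 1) {x : ℂ} (hx : ‖x‖ < 1) : ‖BB b1 α s x‖ < 1 := by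
  induction s generalizing x with
  | zero => exact hx
  | succ s ih =>
    rw [bb_succ]
    exact ih (fun i hi => ha i (hi.trans (Nat.lt_succ_self s))) (bl_lt (ha s (Nat.lt_succ_self s)) hx)

theorem bb_diff {α : ℕ → ℂ} {s : ℕ} (ha : ∀ i < s, ‖α i‖ < 1) : DifferentiableOn ℂ (BB b1 α s) (ball 0 1) := by
  induction s with
  | zero => exact differentiableOn_id
  | succ s ih =>
    have h1 := (ih fun i hi => ha i (hi.trans (Nat.lt_succ_self s))).comp (bl_diff (ha s (Nat.lt_succ_self s)))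
      (fun x hx => mem_ball_zero_iff.2 (bl_lt (ha s (Nat.lt_succ_self s)) (mem_ball_zero_iff.1 hx)))
    exact h1

/-- the radius of the preimage -/
theorem bl_bd {α x : ℂ} {a b : ℝ} (ha : ‖α‖ ≤ a) (ha1 : a < 1) (hb1 : b < 1) (hx : ‖x‖ < 1) (hb : ‖Bl 1 α x‖ ≤ b) :
    ‖x‖ ≤ 1 - (1 - b ^ 2) * (1 - a) ^ 2 / 4 := by
  have hα1 : ‖α‖ < 1 := lt_of_le_of_lt ha ha1
  have ha0 : 0 ≤ a := (norm_nonneg _).trans ha
  have hb0 : 0 ≤ b := (norm_nonneg _).trans hb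
  have hden := bl_den hα1 hx
  obtain ⟨w, hw⟩ : ∃ w : ℂ, w = x ^ 2 := ⟨_, rfl⟩
  have hw1 : ‖w‖ < 1 := by rw [hw]; exact sq_lt hx
  rw [bl_eq, ← hw] at hb
  rw [← hw] at hden
  have hdn : 0 < ‖1 + (starRingEnd ℂ) α * w‖ := norm_pos_iff.2 hden
  have e1 : ‖1 + (starRingEnd ℂ) α * w‖ ^ 2 - ‖w + α‖ ^ 2 = (1 - ‖α‖ ^ 2) * (1 - ‖w‖ ^ 2) := by
    simp only [← Complex.normSq_eq_norm_sq, Complex.normSq_apply]
    simp only [Complex.add_re, Complex.add_im, Complex.mul_re, Complex.mul_im, Complex.conj_re, Complex.conj_im,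
      Complex.one_re, Complex.one_im]
    ring
  have h1 : ‖w + α‖ ≤ b * ‖1 + (starRingEnd ℂ) α * w‖ := by
    rw [norm_div, div_le_iff₀ hdn] at hb
    exact hb
  have h2 : ‖w + α‖ ^ 2 ≤ b ^ 2 * ‖1 + (starRingEnd ℂ) α * w‖ ^ 2 := by
    rw [← mul_pow]
    exact pow_le_pow_left₀ (norm_nonneg _) h1 2
  have h3 : 1 - a ≤ ‖1 + (starRingEnd ℂ) α * w‖ := by
    have h4 : ‖(1 : ℂ)‖ - ‖(starRingEnd ℂ) α * w‖ ≤ ‖1 + (starRingEnd ℂ) α * w‖ := by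
      have := norm_sub_norm_le (1 : ℂ) (-((starRingEnd ℂ) α * w))
      rwa [norm_neg, sub_neg_eq_add] at this
    rw [norm_one, norm_mul, RCLike.norm_conj] at h4
    have h5 : ‖α‖ * ‖w‖ ≤ a * 1 := mul_le_mul ha hw1.le (norm_nonneg _) ha0
    linarith
  have h6 : (1 - a) ^ 2 ≤ ‖1 + (starRingEnd ℂ) α * w‖ ^ 2 := pow_le_pow_left₀ (by linarith) h3 2
  have h7 : (1 - b ^ 2) * (1 - a) ^ 2 ≤ 1 - ‖w‖ ^ 2 := by
    have hb2 : 0 < 1 - b ^ 2 := by nlinarith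
    have h8 : (1 - b ^ 2) * (1 - a) ^ 2 ≤ (1 - b ^ 2) * ‖1 + (starRingEnd ℂ) α * w‖ ^ 2 :=
      mul_le_mul_of_nonneg_left h6 hb2.le
    have h9 : (1 - ‖α‖ ^ 2) * (1 - ‖w‖ ^ 2) ≤ 1 * (1 - ‖w‖ ^ 2) := by
      refine mul_le_mul_of_nonneg_right ?_ ?_
      · nlinarith [norm_nonneg α]
      · nlinarith [norm_nonneg w]
    nlinarith
  obtain ⟨e, he⟩ : ∃ e : ℝ, e = (1 - b ^ 2) * (1 - a) ^ 2 := ⟨_, rfl⟩
  rw [← he] at h7 ⊢
  have he1 : e ≤ 1 := by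
    have : 0 ≤ ‖w‖ ^ 2 := by positivity
    linarith
  have hw4 : ‖w‖ ^ 2 = ‖x‖ ^ 4 := by
    rw [hw, norm_pow]
    ring
  by_contra hcon
  rw [not_le] at hcon
  have h10 : 1 + (4 : ℕ) * (-(e / 4)) ≤ (1 + -(e / 4)) ^ 4 := one_add_mul_le_pow (by linarith) 4
  have h11 : (1 + -(e / 4)) ^ 4 < ‖x‖ ^ 4 := by
    refine pow_lt_pow_left₀ (by linarith) (by linarith) (by norm_num)
  push_cast at h10
  linarith

/-- the radius of `{‖BB‖ ≤ r}` -/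
theorem bb_ex {θ : ℝ} (hθ1 : θ < 1) (s : ℕ) {r : ℝ} (hr1 : r < 1) :
    ∃ ρ : ℝ, 0 < ρ ∧ ρ < 1 ∧ ∀ α : ℕ → ℂ, (∀ i < s, ‖α i‖ < 1) → (∀ i < s, ‖BB b1 α i (α i)‖ ≤ θ) →
      ∀ x : ℂ, ‖x‖ < 1 → ‖BB b1 α s x‖ ≤ r → ‖x‖ ≤ ρ := by
  induction s generalizing r with
  | zero =>
    refine ⟨max r (1 / 2), lt_max_of_lt_right (by norm_num), max_lt hr1 (by norm_num), fun α _ _ x _ h => ?_⟩
    exact (show ‖x‖ ≤ r from h).trans (le_max_left _ _)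
  | succ s ih =>
    obtain ⟨a, ha0, ha1, ha⟩ := ih hθ1
    obtain ⟨b, hb0, hb1, hb⟩ := ih hr1
    have h1 : 0 < 1 - b ^ 2 := by nlinarith
    have h2 : 0 < 1 - a := by linarith
    refine ⟨1 - (1 - b ^ 2) * (1 - a) ^ 2 / 4, ?_, ?_, fun α h3 h4 x hx hxr => ?_⟩
    · have h3 : (1 - b ^ 2) * (1 - a) ^ 2 ≤ 1 * 1 := by
        refine mul_le_mul ?_ ?_ (by positivity) zero_le_one
        · nlinarith
        · nlinarith
      linarith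
    · have : 0 < (1 - b ^ 2) * (1 - a) ^ 2 := by positivity
      linarith
    · have h5 : ∀ i < s, ‖α i‖ < 1 := fun i hi => h3 i (hi.trans (Nat.lt_succ_self s))
      have h6 : ∀ i < s, ‖BB b1 α i (α i)‖ ≤ θ := fun i hi => h4 i (hi.trans (Nat.lt_succ_self s))
      have h7 := ha α h5 h6 (α s) (h3 s (Nat.lt_succ_self s)) (h4 s (Nat.lt_succ_self s))
      rw [bb_succ] at hxr
      have h8 := hb α h5 h6 _ (bl_lt (h3 s (Nat.lt_succ_self s)) hx) hxr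
      exact bl_bd h7 ha1 hb1 hx h8

/-- growth of univalent functions -/
theorem gr {ρ : ℝ} (hρ : ρ < 1) : ∃ K : ℝ, 1 ≤ K ∧ ∀ g : ℂ → ℂ, DifferentiableOn ℂ g (ball 0 1) → InjOn g (ball 0 1) →
    ∀ x : ℂ, ‖x‖ ≤ ρ → ‖g x - g 0‖ ≤ K * ‖deriv g 0‖ := by
  obtain ⟨N, hN⟩ := exists_nat_ge (2 / (1 - ρ))
  have h1 : 0 < 1 - ρ := by linarith
  refine ⟨Pool.Agent.H80.AJ.KK ^ N, one_le_pow₀ Pool.Agent.H80.AJ.one_le_KK, fun g hg hi x hx => ?_⟩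
  have hK : 0 < Pool.Agent.H80.AJ.KK ^ N := pow_pos Pool.Agent.H80.AJ.KK_pos N
  have hball : ∀ v : ℂ, ‖v‖ ≤ ρ → ball v (1 - ρ) ⊆ ball 0 1 := by
    intro v hv
    refine ball_subset_ball' ?_
    rw [dist_zero_right]
    linarith
  have hder : ∀ v : ℂ, ‖v‖ ≤ ρ → ‖deriv g v‖ ≤ Pool.Agent.H80.AJ.KK ^ N * ‖deriv g 0‖ := by
    intro v hv
    refine Pool.Agent.H65.UB.chain h1 N ?_ fun u hu => ?_
    · rw [sub_zero]
      have h3 : 2 ≤ N * (1 - ρ) := by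
        rwa [div_le_iff₀ h1] at hN
      have h4 : N * ((1 - ρ) / 2) = (N * (1 - ρ)) / 2 := by ring
      rw [h4]
      linarith
    · have h5 : ‖u‖ ≤ ρ := by
        have h0 : (0 : ℂ) ∈ closedBall (0 : ℂ) ρ := mem_closedBall_self ((norm_nonneg v).trans hv)
        have h6 := (convex_closedBall (0 : ℂ) ρ).segment_subset (mem_closedBall_zero_iff.2 hv) h0 hu
        exact mem_closedBall_zero_iff.1 h6
      exact ⟨hg.mono (hball u h5), hi.mono (hball u h5)⟩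
  have hρ0 : 0 ≤ ρ := (norm_nonneg _).trans hx
  have h2 := Convex.norm_image_sub_le_of_norm_deriv_le (𝕜 := ℂ) (s := closedBall (0 : ℂ) ρ)
    (C := Pool.Agent.H80.AJ.KK ^ N * ‖deriv g 0‖) (f := g) (x := 0) (y := x)
    (fun v hv => hg.differentiableAt (isOpen_ball.mem_nhds (by
      have := mem_closedBall_zero_iff.1 hv
      exact mem_ball_zero_iff.2 (by linarith))))
    (fun v hv => hder v (mem_closedBall_zero_iff.1 hv)) (convex_closedBall _ _)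
    (mem_closedBall_self hρ0) (mem_closedBall_zero_iff.2 hx)
  rw [sub_zero] at h2
  refine h2.trans ?_
  have h3 : 0 ≤ Pool.Agent.H80.AJ.KK ^ N * ‖deriv g 0‖ := by positivity
  calc Pool.Agent.H80.AJ.KK ^ N * ‖deriv g 0‖ * ‖x‖ ≤ Pool.Agent.H80.AJ.KK ^ N * ‖deriv g 0‖ * 1 :=
        mul_le_mul_of_nonneg_left (by linarith) h3
    _ = _ := mul_one _

end Pool.Agent.H3.SZ
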