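import Pool.Agent.H3.SZ.Bp
import Pool.Agent.H56.UD.DA
import Pool.Agent.H80.AJ.Cover

/-!
# [DIM X] SZ: sizes and crossings of the windows of a tower

`Kt k i = k 0 + .. + k (i - 1)`. `tw_it`: `f^[Kt k i] (χ i v) = χ 0 (BB b1 α i v)`; `tw_dm`: membership in `dm`. `noattr`: a small open set which meets `J` is not
mapped into itself by an iterate (`PS.leo`). `tw_up`: if `‖deriv (χ i) 0‖ > 32 M ‖deriv (χ 0) 0‖` then the ball `ball c (2 M ‖deriv (χ 0) 0‖)` is in `χ i '' ball 0 1` (`univ_cover`)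
and is mapped into `χ 0 '' ball 0 1`, a subset of it: against `noattr`. `tw_lo`: `χ i (x i) = f^[t i] z` is not in `χ 0 '' ball 0 r`, which contains `ball c (r ‖deriv (χ 0) 0‖ / 16)`; growth of `χ i`.
`tw_cr`: the boundaries of `X_0^r = χ 0 '' ball 0 r` and `X_i^r = χ i '' {‖BB i‖ < r}` meet (`cross`): `X_i^r` is not in `X_0^r` by the first entrance, `X_0^r` is not in `X_i^r` by `noattr`.
-/

set_option autoImplicit false

open Filter Topology Metric Set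

namespace Pool.Agent.H3.SZ

open Pool.Agent.H56.UD (PS dm dm_add' dm_zero)
open Pool.Agent.H64.XL
open Pool.Agent.H66.GEO (Bl BB)

/-- sums of times -/
def Kt (k : ℕ → ℕ) : ℕ → ℕ
  | 0 => 0
  | i + 1 => k i + Kt k i

variable {f : ℂ → ℂ} {U J P Cr : Set ℂ} {δ : ℝ} {η : ℂ → ℂ → ℂ} {ρ : ℝ}
  {c z : ℂ} {θ r M ε : ℝ} {s : ℕ} {k t : ℕ → ℕ} {α x : ℕ → ℂ} {χ : ℕ → ℂ → ℂ}

theorem tw_it (h : Tw f U J P δ c z θ r s k t α x χ) {i : ℕ} (hi : i ≤ s) {v : ℂ} (hv : v ∈ ball (0 : ℂ) 1) :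
    f^[Kt k i] (χ i v) = χ 0 (BB b1 α i v) := by
  induction i generalizing v with
  | zero => rfl
  | succ i ih =>
    have his : i < s := hi
    have h1 := h.st i his v hv
    show f^[k i + Kt k i] (χ (i + 1) v) = χ 0 (BB b1 α (i + 1) v)
    rw [add_comm, Function.iterate_add_apply, h1.2, bb_succ]
    exact ih his.le (mem_ball_zero_iff.2 (bl_lt (h.al i his) (mem_ball_zero_iff.1 hv)))

theorem tw_dm (h : Tw f U J P δ c z θ r s k t α x χ) (hW : ∀ v ∈ ball (0 : ℂ) 1, χ 0 v ∈ thickening δ J) {i : ℕ} (hi : i ≤ s)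
    {v : ℂ} (hv : v ∈ ball (0 : ℂ) 1) : χ i v ∈ dm f U J δ (Kt k i) := by
  induction i generalizing v with
  | zero =>
    show χ 0 v ∈ dm f U J δ 0
    rw [dm_zero]
    exact hW v hv
  | succ i ih =>
    have his : i < s := hi
    have h1 := h.st i his v hv
    show χ (i + 1) v ∈ dm f U J δ (k i + Kt k i)
    refine dm_add' h1.1 ?_
    rw [h1.2]
    exact ih his.le (mem_ball_zero_iff.2 (bl_lt (h.al i his) (mem_ball_zero_iff.1 hv)))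

theorem kt_pos (h : Tw f U J P δ c z θ r s k t α x χ) {i : ℕ} (h1 : 1 ≤ i) (hi : i ≤ s) : 1 ≤ Kt k i := by
  obtain ⟨j, rfl⟩ := Nat.exists_eq_add_of_le' h1
  have h2 := h.kp j (by omega)
  show 1 ≤ k j + Kt k j
  omega

theorem tw_t (h : Tw f U J P δ c z θ r s k t α x χ) {i : ℕ} (h1 : 1 ≤ i) (hi : i ≤ s) : t i < t 0 := by
  induction i with
  | zero => omega
  | succ i ih =>
    have h2 := h.td i hi
    rcases Nat.eq_zero_or_pos i with h3 | h3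
    · rw [h3] at h2 ⊢
      exact h2
    · exact h2.trans (ih h3 (by omega))

/-- no attraction -/
theorem noattr (h : PS f U J P Cr δ η ρ) : ∃ d : ℝ, 0 < d ∧ ∀ (X : Set ℂ) (K : ℕ) (c : ℂ), IsOpen X → c ∈ X → c ∈ J →
    X ⊆ ball c d → 1 ≤ K → ¬ ∀ w ∈ X, f^[K] w ∈ X := by
  obtain ⟨a, ha, b, hb, hab⟩ := h.Jt
  have hd : 0 < dist a b := dist_pos.2 hab
  refine ⟨dist a b / 2, by positivity, fun X K c hX hcX hcJ hXb hK hmap => ?_⟩
  obtain ⟨N, hN⟩ := h.leo X hX ⟨c, hcX, hcJ⟩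
  have h1 : ∀ n : ℕ, ∀ w ∈ X, f^[K * n] w ∈ X := by
    intro n
    induction n with
    | zero => intro w hw; simpa using hw
    | succ n ih =>
      intro w hw
      rw [Nat.mul_succ, Function.iterate_add_apply]
      exact ih _ (hmap w hw)
  have h2 := hN (K * N) (Nat.le_mul_of_pos_left N hK)
  have h3 : J ⊆ X := by
    intro w hw
    obtain ⟨u, hu, rfl⟩ := h2 hw
    exact h1 N u hu.1
  have h4 := mem_ball.1 (hXb (h3 ha))
  have h5 := mem_ball.1 (hXb (h3 hb))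
  have h6 := dist_triangle_right a b c
  linarith

theorem wt_sz (h : Wt f U J P δ c θ M ε (χ 0)) : ‖deriv (χ 0) 0‖ ≤ 16 * ε := by
  by_contra hcon
  rw [not_le] at hcon
  have h1 := Pool.Agent.H80.AJ.univ_cover one_pos h.d h.i
  rw [h.c0, one_mul] at h1
  have hε : 0 < ε := by
    have h2 := h.e 0 (mem_ball_self one_pos)
    rw [h.c0] at h2
    exact dist_self c ▸ (mem_ball.1 h2)
  have h3 : c + (ε : ℂ) ∈ ball c (‖deriv (χ 0) 0‖ / 16) := by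
    rw [mem_ball, dist_eq_norm, add_sub_cancel_left, Complex.norm_real, Real.norm_of_nonneg hε.le]
    linarith
  obtain ⟨v, hv, hve⟩ := h1 h3
  have h4 := h.e v hv
  rw [hve, mem_ball, dist_eq_norm, add_sub_cancel_left, Complex.norm_real, Real.norm_of_nonneg hε.le] at h4
  exact lt_irrefl _ h4

theorem der_pos (h : Tw f U J P δ c z θ r s k t α x χ) {i : ℕ} (hi : i ≤ s) : 0 < ‖deriv (χ i) 0‖ :=
  Pool.Agent.H80.AJ.deriv_ne one_pos (h.d i hi) (h.i i hi) (mem_closedBall_self (by norm_num))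

/-- upper bound for the sizes -/
theorem tw_up (h : PS f U J P Cr δ η ρ) (hM : 1 ≤ M) : ∃ ε0 : ℝ, 0 < ε0 ∧ ∀ {c z : ℂ} {θ r ε : ℝ} {s : ℕ} {k t : ℕ → ℕ}
    {α x : ℕ → ℂ} {χ : ℕ → ℂ → ℂ}, Tw f U J P δ c z θ r s k t α x χ → c ∈ J → Wt f U J P δ c θ M ε (χ 0) → ε ≤ ε0 →
    ∀ i ≤ s, ‖deriv (χ i) 0‖ ≤ 32 * M * ‖deriv (χ 0) 0‖ := by
  obtain ⟨d, hd, hno⟩ := noattr h
  refine ⟨d / (32 * M), by positivity, fun {c z θ r ε s k t α x χ} hT hc hW hε i hi => ?_⟩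
  have hM0 : 0 < M := by linarith
  have h0 : 0 < ‖deriv (χ 0) 0‖ := der_pos hT (Nat.zero_le s)
  rcases Nat.eq_zero_or_pos i with hi0 | hi0
  · rw [hi0]
    have h1 : 1 * ‖deriv (χ 0) 0‖ ≤ 32 * M * ‖deriv (χ 0) 0‖ := mul_le_mul_of_nonneg_right (by linarith) h0.le
    linarith
  by_contra hcon
  rw [not_le] at hcon
  have h1 := Pool.Agent.H80.AJ.univ_cover one_pos (hT.d i hi) (hT.i i hi)
  rw [hT.c0 i hi, one_mul] at h1
  have hR : 0 < 2 * M * ‖deriv (χ 0) 0‖ := by positivity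
  refine hno (ball c (2 * M * ‖deriv (χ 0) 0‖)) (Kt k i) c isOpen_ball (mem_ball_self hR) hc ?_ (kt_pos hT hi0 hi) ?_
  · refine ball_subset_ball ?_
    have h2 := wt_sz hW
    have h3 : 16 * ε ≤ d / (2 * M) := by
      have h4 : 16 * (d / (32 * M)) = d / (2 * M) := by
        field_simp
        ring
      linarith
    have h5 : ‖deriv (χ 0) 0‖ ≤ d / (2 * M) := h2.trans h3
    rw [le_div_iff₀ (by positivity)] at h5
    linarith
  · intro w hw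
    have h2 : w ∈ ball c (‖deriv (χ i) 0‖ / 16) := by
      refine ball_subset_ball ?_ hw
      linarith
    obtain ⟨v, hv, rfl⟩ := h1 h2
    rw [tw_it hT hi hv]
    have h3 : BB b1 α i v ∈ ball (0 : ℂ) 1 :=
      mem_ball_zero_iff.2 (bb_lt (fun j hj => hT.al j (hj.trans_le hi)) (mem_ball_zero_iff.1 hv))
    have h4 := hW.bd _ h3
    rw [mem_ball, dist_eq_norm]
    have h5 : M * ‖deriv (χ 0) 0‖ < 2 * M * ‖deriv (χ 0) 0‖ := by
      have : 0 < M * ‖deriv (χ 0) 0‖ := by positivity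
      linarith
    exact h4.trans_lt h5

/-- lower bound for the sizes -/
theorem tw_lo (hθ : θ < 1) (hr0 : 0 < r) (hr1 : r < 1) (i : ℕ) : ∃ κ : ℝ, 0 < κ ∧ ∀ {f : ℂ → ℂ} {U J P : Set ℂ} {δ : ℝ} {c z : ℂ}
    {s : ℕ} {k t : ℕ → ℕ} {α x : ℕ → ℂ} {χ : ℕ → ℂ → ℂ}, Tw f U J P δ c z θ r s k t α x χ → i ≤ s →
    κ * ‖deriv (χ 0) 0‖ ≤ ‖deriv (χ i) 0‖ := by
  obtain ⟨ρ, hρ0, hρ1, hρ⟩ := bb_ex hθ i hr1
  obtain ⟨K, hK1, hK⟩ := gr hρ1
  have hK0 : 0 < K := by linarith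
  refine ⟨r / (16 * K), by positivity, fun {f U J P δ c z s k t α x χ} hT hi => ?_⟩
  have h0 : 0 < ‖deriv (χ 0) 0‖ := der_pos hT (Nat.zero_le s)
  rcases Nat.eq_zero_or_pos i with hi0 | hi0
  · rw [hi0]
    have h1 : r / (16 * K) ≤ 1 := by
      rw [div_le_one (by positivity)]
      linarith
    calc r / (16 * K) * ‖deriv (χ 0) 0‖ ≤ 1 * ‖deriv (χ 0) 0‖ := mul_le_mul_of_nonneg_right h1 h0.le
      _ = _ := one_mul _
  have hsub : ball (0 : ℂ) r ⊆ ball 0 1 := ball_subset_ball hr1.le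
  have h1 := Pool.Agent.H80.AJ.univ_cover hr0 ((hT.d 0 (Nat.zero_le s)).mono hsub) ((hT.i 0 (Nat.zero_le s)).mono hsub)
  rw [hT.c0 0 (Nat.zero_le s)] at h1
  obtain ⟨h2, h3, h4⟩ := hT.tm i hi
  have h5 : χ i (x i) ∉ χ 0 '' ball 0 r := by
    rw [h4]
    exact hT.fe _ (tw_t hT hi0 hi)
  have h6 : r * ‖deriv (χ 0) 0‖ / 16 ≤ ‖χ i (x i) - c‖ := by
    by_contra h7
    exact h5 (h1 (by
      rw [mem_ball, dist_eq_norm]
      exact not_le.1 h7))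
  have h7 : ‖x i‖ ≤ ρ := hρ α (fun j hj => hT.al j (hj.trans_le hi)) (fun j hj => hT.cv j (hj.trans_le hi)) (x i)
    (mem_ball_zero_iff.1 h2) h3.le
  have h8 := hK (χ i) (hT.d i hi) (hT.i i hi) (x i) h7
  rw [hT.c0 i hi] at h8
  have h9 := h6.trans h8
  rw [div_mul_eq_mul_div, div_le_iff₀ (by positivity)]
  linarith

/-- the boundaries cross -/
theorem tw_cr (h : PS f U J P Cr δ η ρ) (hM : 1 ≤ M) (hθ0 : 0 ≤ θ) (hθr : θ < r) (hr1 : r < 1) {i : ℕ} (hi1 : 1 ≤ i) :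
    ∃ ε0 : ℝ, 0 < ε0 ∧ ∀ {c z : ℂ} {ε : ℝ} {s : ℕ} {k t : ℕ → ℕ} {α x : ℕ → ℂ} {χ : ℕ → ℂ → ℂ},
      Tw f U J P δ c z θ r s k t α x χ → c ∈ J → Wt f U J P δ c θ M ε (χ 0) → ε ≤ ε0 → i ≤ s →
      ∃ x y : ℂ, ‖x‖ = r ∧ ‖y‖ < 1 ∧ ‖BB b1 α i y‖ = r ∧ χ i y = χ 0 x := by
  have hθ1 : θ < 1 := hθr.trans hr1
  have hr0 : 0 < r := hθ0.trans_lt hθr
  have hM0 : 0 < M := by linarith
  obtain ⟨ρ, hρ0, hρ1, hρ⟩ := bb_ex hθ1 i hr1
  obtain ⟨K, hK1, hK⟩ := gr hρ1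
  have hK0 : 0 < K := by linarith
  obtain ⟨ε1, hε1, hup⟩ := tw_up h hM
  obtain ⟨d, hd, hno⟩ := noattr h
  refine ⟨min ε1 (d / (1024 * K * M)), lt_min hε1 (by positivity), fun {c z ε s k t α x χ} hT hc hW hε hi => ?_⟩
  have hα : ∀ j < i, ‖α j‖ < 1 := fun j hj => hT.al j (hj.trans_le hi)
  have hcv : ∀ j < i, ‖BB b1 α j (α j)‖ ≤ θ := fun j hj => hT.cv j (hj.trans_le hi)
  have hTs : {v : ℂ | ‖v‖ < 1 ∧ ‖BB b1 α i v‖ < r} ⊆ ball 0 1 := fun v hv => mem_ball_zero_iff.2 hv.1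
  have hb0 : ‖BB b1 α i 0‖ < r := by
    obtain ⟨j, rfl⟩ := Nat.exists_eq_add_of_le' hi1
    rw [bb_succ, bl_eq]
    have h1 : ((0 : ℂ) ^ 2 + α j) / (1 + (starRingEnd ℂ) (α j) * 0 ^ 2) = α j := by
      rw [zero_pow two_ne_zero, zero_add, mul_zero, add_zero, div_one]
    rw [h1]
    exact (hcv j (Nat.lt_succ_self j)).trans_lt hθr
  have hρ' : ∀ v : ℂ, ‖v‖ < 1 → ‖BB b1 α i v‖ ≤ r → ‖v‖ ≤ ρ := fun v => hρ α hα hcv v
  refine cross (hT.d i hi) (hT.i i hi) (hT.d 0 (Nat.zero_le s)) (hT.i 0 (Nat.zero_le s)) (bb_diff hα) hr0 hr1 hρ1 hρ'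
    ((hT.c0 0 (Nat.zero_le s)).trans (hT.c0 i hi).symm) hb0 ?_ ?_ (bb_pre hr1.le hθr hα hcv)
  · intro hcon
    refine hno (χ i '' {v | ‖v‖ < 1 ∧ ‖BB b1 α i v‖ < r}) (Kt k i) c
      (Pool.Agent.H39.HO.inj_open isOpen_ball (hT.d i hi) (hT.i i hi) hTs (bb_open hα r))
      ⟨0, ⟨by simp, hb0⟩, hT.c0 i hi⟩ hc ?_ (kt_pos hT hi1 hi) ?_
    · rintro _ ⟨v, hv, rfl⟩
      rw [mem_ball, dist_eq_norm]
      have h1 := hK (χ i) (hT.d i hi) (hT.i i hi) v (hρ' v hv.1 hv.2.le)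
      rw [hT.c0 i hi] at h1
      have h2 := hup hT hc hW (hε.trans (min_le_left _ _)) i hi
      have h3 := wt_sz hW
      have h4 : ε ≤ d / (1024 * K * M) := hε.trans (min_le_right _ _)
      rw [le_div_iff₀ (by positivity)] at h4
      have h5 : K * ‖deriv (χ i) 0‖ ≤ K * (32 * M * (16 * ε)) := by
        refine mul_le_mul_of_nonneg_left (h2.trans ?_) hK0.le
        exact mul_le_mul_of_nonneg_left h3 (by positivity)
      have h6 : K * (32 * M * (16 * ε)) = ε * (1024 * K * M) / 2 := by ring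
      linarith
    · rintro _ ⟨v, hv, rfl⟩
      rw [tw_it hT hi (hTs hv)]
      exact hcon ⟨_, mem_ball_zero_iff.2 hv.2, rfl⟩
  · intro hcon
    obtain ⟨h2, h3, h4⟩ := hT.tm i hi
    have h5 : χ i (x i) ∈ χ 0 '' ball 0 r := hcon ⟨x i, ⟨mem_ball_zero_iff.1 h2, h3⟩, rfl⟩
    rw [h4] at h5
    exact hT.fe _ (tw_t hT hi1 hi) h5

end Pool.Agent.H3.SZ
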