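import Pool.Agent.H3.SZ.Bb
import Pool.Agent.H81.RW.Sqf
import Pool.Agent.H81.RW.Nlg
import Pool.Agent.H56.TH.TF
import Pool.Agent.H39.HO.PB

/-!
# [DIM X] SZ: the domains `{‖BB‖ < r}` are connected; curves which cross

`bb_pre`: `Bl 1 α x = M (x²)` with the Moebius map `M` of the disc; `{x | x² ∈ M⁻¹ V}` is connected if `V ∋ α` is (`sq_pre`, H81/RW/Sqf).
`cross`: `A = g0 '' ball 0 r`, `B = g '' T`, `T = {‖b‖ < r}`. The curve `S = g0 '' sphere 0 r` is connected. If it does not meet the frontier of `B`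
then `S ⊆ B` and `A ⊆ B` (`g '' ball 0 1` is full, maximum principle for `b ∘ g⁻¹`), or `S ∩ B = ∅` and `B ⊆ A`.
-/

set_option autoImplicit false

open Filter Topology Metric Set

namespace Pool.Agent.H3.SZ

open Pool.Agent.H64.XL (b1)
open Pool.Agent.H66.GEO (Bl BB)

/-- the inverse Moebius map -/
private noncomputable def mi (α y : ℂ) : ℂ := (y - α) / (1 - (starRingEnd ℂ) α * y)

private theorem mi_den {α y : ℂ} (ha : ‖α‖ < 1) (hy : ‖y‖ < 1) : 1 - (starRingEnd ℂ) α * y ≠ 0 := by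
  intro h0
  have h1 : ‖(starRingEnd ℂ) α * y‖ = 1 := by
    have : (starRingEnd ℂ) α * y = 1 := by linear_combination -h0
    rw [this]; simp
  rw [norm_mul, RCLike.norm_conj] at h1
  nlinarith [norm_nonneg α, norm_nonneg y]

private theorem mi_lt {α y : ℂ} (ha : ‖α‖ < 1) (hy : ‖y‖ < 1) : ‖mi α y‖ < 1 := by
  have h1 := Pool.Agent.H56.UD.mob_lt (α := -α) (w := y) (by rwa [norm_neg]) hy
  have h2 : (y + -α) / (1 + (starRingEnd ℂ) (-α) * y) = mi α y := by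
    unfold mi
    rw [map_neg]
    congr 1
    ring
  rwa [h2] at h1

private theorem al_ne {α : ℂ} (ha : ‖α‖ < 1) : (1 : ℂ) - (starRingEnd ℂ) α * α ≠ 0 := mi_den ha ha

private theorem mi_left {α w : ℂ} (ha : ‖α‖ < 1) (hw : ‖w‖ < 1) : mi α ((w + α) / (1 + (starRingEnd ℂ) α * w)) = w := by
  have h1 : 1 + (starRingEnd ℂ) α * w ≠ 0 := by
    have := mi_den (α := -α) (y := w) (by rwa [norm_neg]) hw
    rwa [map_neg, neg_mul, sub_neg_eq_add] at this
  have h2 := al_ne ha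
  unfold mi
  have h3 : (w + α) / (1 + (starRingEnd ℂ) α * w) - α = w * (1 - (starRingEnd ℂ) α * α) / (1 + (starRingEnd ℂ) α * w) := by
    rw [div_sub' h1]
    congr 1
    ring
  have h4 : 1 - (starRingEnd ℂ) α * ((w + α) / (1 + (starRingEnd ℂ) α * w)) =
      (1 - (starRingEnd ℂ) α * α) / (1 + (starRingEnd ℂ) α * w) := by
    rw [← mul_div_assoc, sub_div' h1]
    congr 1
    ring
  rw [h3, h4, div_div_div_cancel_right₀ h1, mul_div_assoc, div_self h2, mul_one]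

private theorem mi_right {α y : ℂ} (ha : ‖α‖ < 1) (hy : ‖y‖ < 1) : (mi α y + α) / (1 + (starRingEnd ℂ) α * mi α y) = y := by
  have h1 := mi_den ha hy
  have h2 := al_ne ha
  unfold mi
  have h3 : (y - α) / (1 - (starRingEnd ℂ) α * y) + α = y * (1 - (starRingEnd ℂ) α * α) / (1 - (starRingEnd ℂ) α * y) := by
    rw [div_add' _ _ _ h1]
    congr 1
    ring
  have h4 : 1 + (starRingEnd ℂ) α * ((y - α) / (1 - (starRingEnd ℂ) α * y)) =
      (1 - (starRingEnd ℂ) α * α) / (1 - (starRingEnd ℂ) α * y) := by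
    rw [← mul_div_assoc, add_div' _ _ _ h1]
    congr 1
    ring
  rw [h3, h4, div_div_div_cancel_right₀ h1, mul_div_assoc, div_self h2, mul_one]

private theorem mi_open {α : ℂ} (ha : ‖α‖ < 1) {V : Set ℂ} (hV : IsOpen V) (hV1 : V ⊆ ball 0 1) : IsOpen (mi α '' V) := by
  have h1 : mi α '' V = ball 0 1 ∩ (fun w => (w + α) / (1 + (starRingEnd ℂ) α * w)) ⁻¹' V := by
    ext w
    constructor
    · rintro ⟨y, hy, rfl⟩
      have hy1 := mem_ball_zero_iff.1 (hV1 hy)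
      refine ⟨mem_ball_zero_iff.2 (mi_lt ha hy1), ?_⟩
      show (mi α y + α) / (1 + (starRingEnd ℂ) α * mi α y) ∈ V
      rw [mi_right ha hy1]
      exact hy
    · rintro ⟨hw, hwV⟩
      exact ⟨_, hwV, mi_left ha (mem_ball_zero_iff.1 hw)⟩
  rw [h1]
  refine ContinuousOn.isOpen_inter_preimage ?_ isOpen_ball hV
  refine ContinuousOn.div (by fun_prop) (by fun_prop) fun w hw => ?_
  have := mi_den (α := -α) (y := w) (by rwa [norm_neg]) (mem_ball_zero_iff.1 hw)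
  rwa [map_neg, neg_mul, sub_neg_eq_add] at this

theorem bb_open {α : ℕ → ℂ} {s : ℕ} (ha : ∀ i < s, ‖α i‖ < 1) (r : ℝ) : IsOpen {x : ℂ | ‖x‖ < 1 ∧ ‖BB b1 α s x‖ < r} := by
  have h1 := (bb_diff ha).continuousOn.norm.isOpen_inter_preimage isOpen_ball (isOpen_Iio (a := r))
  convert h1 using 1
  ext x
  constructor
  · rintro ⟨h2, h3⟩
    exact ⟨mem_ball_zero_iff.2 h2, h3⟩
  · rintro ⟨h2, h3⟩
    exact ⟨mem_ball_zero_iff.1 h2, h3⟩

/-- the domains `{‖BB‖ < r}` are connected -/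
theorem bb_pre {α : ℕ → ℂ} {s : ℕ} {r θ : ℝ} (hr1 : r ≤ 1) (hθ : θ < r) (ha : ∀ i < s, ‖α i‖ < 1)
    (hc : ∀ i < s, ‖BB b1 α i (α i)‖ ≤ θ) : IsPreconnected {x : ℂ | ‖x‖ < 1 ∧ ‖BB b1 α s x‖ < r} := by
  induction s with
  | zero =>
    have h1 : {x : ℂ | ‖x‖ < 1 ∧ ‖BB b1 α 0 x‖ < r} = ball 0 r := by
      ext x
      rw [mem_ball_zero_iff]
      constructor
      · rintro ⟨-, h2⟩
        exact h2
      · intro h2
        exact ⟨h2.trans_le hr1, h2⟩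
    rw [h1]
    exact (convex_ball 0 r).isPreconnected
  | succ s ih =>
    have hs := Nat.lt_succ_self s
    have h2 := ih (fun i hi => ha i (hi.trans hs)) (fun i hi => hc i (hi.trans hs))
    have hVo := bb_open (α := α) (s := s) (fun i hi => ha i (hi.trans hs)) r
    have hV1 : {x : ℂ | ‖x‖ < 1 ∧ ‖BB b1 α s x‖ < r} ⊆ ball 0 1 := fun x hx => mem_ball_zero_iff.2 hx.1
    have hαV : α s ∈ {x : ℂ | ‖x‖ < 1 ∧ ‖BB b1 α s x‖ < r} := ⟨ha s hs, (hc s hs).trans_lt hθ⟩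
    have h0 : (0 : ℂ) ∈ mi (α s) '' {x : ℂ | ‖x‖ < 1 ∧ ‖BB b1 α s x‖ < r} := by
      refine ⟨α s, hαV, ?_⟩
      unfold mi
      rw [sub_self, zero_div]
    have hpre : IsPreconnected (mi (α s) '' {x : ℂ | ‖x‖ < 1 ∧ ‖BB b1 α s x‖ < r}) := by
      refine h2.image _ ?_
      refine ContinuousOn.div (by fun_prop) (by fun_prop) fun w hw => mi_den (ha s hs) hw.1
    have h3 := Pool.Agent.H81.RW.sq_pre (mi_open (ha s hs) hVo hV1) hpre h0
    convert h3 using 1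
    ext x
    constructor
    · rintro ⟨hx, hxr⟩
      show 0 + x ^ 2 ∈ mi (α s) '' {x : ℂ | ‖x‖ < 1 ∧ ‖BB b1 α s x‖ < r}
      rw [zero_add]
      refine ⟨Bl 1 (α s) x, ⟨bl_lt (ha s hs) hx, hxr⟩, ?_⟩
      rw [bl_eq]
      exact mi_left (ha s hs) (sq_lt hx)
    · intro hx
      have hx' : 0 + x ^ 2 ∈ mi (α s) '' {x : ℂ | ‖x‖ < 1 ∧ ‖BB b1 α s x‖ < r} := hx
      rw [zero_add] at hx'
      obtain ⟨y, hy, hyx⟩ := hx'
      have hx1 : ‖x‖ < 1 := by
        have h4 := mi_lt (ha s hs) hy.1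
        rw [hyx, norm_pow] at h4
        by_contra h5
        exact absurd (one_le_pow₀ (not_lt.1 h5) (n := 2)) (not_le.2 h4)
      refine ⟨hx1, ?_⟩
      rw [bb_succ, bl_eq, ← hyx, mi_right (ha s hs) hy.1]
      exact hy.2

private theorem pre_sub {S B : Set ℂ} (hS : IsPreconnected S) (hB : IsOpen B) (hd : Disjoint S (frontier B))
    (hne : (S ∩ B).Nonempty) : S ⊆ B := by
  have ho : IsOpen (closure B)ᶜ := isClosed_closure.isOpen_compl
  have hdj : Disjoint B (closure B)ᶜ := disjoint_compl_right.mono_left subset_closure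
  refine hS.subset_left_of_subset_union hB ho hdj ?_ hne
  intro x hx
  by_cases h1 : x ∈ closure B
  · refine Or.inl ?_
    by_contra h2
    refine (Set.disjoint_left.1 hd) hx ?_
    rw [hB.frontier_eq]
    exact ⟨h1, h2⟩
  · exact Or.inr h1

/-- crossing curves -/
theorem cross {g g0 b : ℂ → ℂ} {r ρ : ℝ} (hg : DifferentiableOn ℂ g (ball 0 1)) (hi : InjOn g (ball 0 1))
    (hg0 : DifferentiableOn ℂ g0 (ball 0 1)) (hi0 : InjOn g0 (ball 0 1)) (hb : DifferentiableOn ℂ b (ball 0 1))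
    (hr0 : 0 < r) (hr1 : r < 1) (hρ1 : ρ < 1) (hρ : ∀ x : ℂ, ‖x‖ < 1 → ‖b x‖ ≤ r → ‖x‖ ≤ ρ) (h00 : g0 0 = g 0)
    (hb0 : ‖b 0‖ < r) (hn1 : ¬ g0 '' ball 0 r ⊆ g '' {x | ‖x‖ < 1 ∧ ‖b x‖ < r})
    (hn2 : ¬ g '' {x | ‖x‖ < 1 ∧ ‖b x‖ < r} ⊆ g0 '' ball 0 r) (hT : IsPreconnected {x : ℂ | ‖x‖ < 1 ∧ ‖b x‖ < r}) :
    ∃ x y : ℂ, ‖x‖ = r ∧ ‖y‖ < 1 ∧ ‖b y‖ = r ∧ g y = g0 x := by
  have hTo : IsOpen {x : ℂ | ‖x‖ < 1 ∧ ‖b x‖ < r} := by
    have h1 := hb.continuousOn.norm.isOpen_inter_preimage isOpen_ball (isOpen_Iio (a := r))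
    convert h1 using 1
    ext x
    exact ⟨fun h => ⟨mem_ball_zero_iff.2 h.1, h.2⟩, fun h => ⟨mem_ball_zero_iff.1 h.1, h.2⟩⟩
  have hTs : {x : ℂ | ‖x‖ < 1 ∧ ‖b x‖ < r} ⊆ ball 0 1 := fun x hx => mem_ball_zero_iff.2 hx.1
  have hrs : ball (0 : ℂ) r ⊆ ball 0 1 := ball_subset_ball hr1.le
  have hBo : IsOpen (g '' {x : ℂ | ‖x‖ < 1 ∧ ‖b x‖ < r}) := Pool.Agent.H39.HO.inj_open isOpen_ball hg hi hTs hTo
  have hAo : IsOpen (g0 '' ball 0 r) := Pool.Agent.H39.HO.inj_open isOpen_ball hg0 hi0 hrs isOpen_ball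
  have hcl0 : closedBall (0 : ℂ) r ⊆ ball 0 1 := closedBall_subset_ball hr1
  have hAc : IsCompact (g0 '' closedBall 0 r) :=
    (isCompact_closedBall 0 r).image_of_continuousOn (hg0.continuousOn.mono hcl0)
  have hAf : frontier (g0 '' ball 0 r) ⊆ g0 '' sphere 0 r := by
    intro p hp
    rw [hAo.frontier_eq] at hp
    have h1 : p ∈ g0 '' closedBall 0 r := by
      have h2 : closure (g0 '' ball 0 r) ⊆ g0 '' closedBall 0 r :=
        closure_minimal (image_mono ball_subset_closedBall) hAc.isClosed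
      exact h2 hp.1
    obtain ⟨x, hx, rfl⟩ := h1
    refine ⟨x, ?_, rfl⟩
    rw [mem_sphere_zero_iff_norm]
    refine le_antisymm (mem_closedBall_zero_iff.1 hx) ?_
    by_contra h3
    exact hp.2 ⟨x, mem_ball_zero_iff.2 (not_le.1 h3), rfl⟩
  -- the frontier of B
  have hρs : closedBall (0 : ℂ) ρ ⊆ ball 0 1 := closedBall_subset_ball hρ1
  have hLc : IsCompact {x : ℂ | ‖x‖ ≤ ρ ∧ ‖b x‖ ≤ r} := by
    have h1 : {x : ℂ | ‖x‖ ≤ ρ ∧ ‖b x‖ ≤ r} = closedBall 0 ρ ∩ (fun x => ‖b x‖) ⁻¹' (Iic r) := by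
      ext x
      exact ⟨fun h => ⟨mem_closedBall_zero_iff.2 h.1, h.2⟩, fun h => ⟨mem_closedBall_zero_iff.1 h.1, h.2⟩⟩
    rw [h1]
    have h2 : IsClosed (closedBall (0 : ℂ) ρ ∩ (fun x => ‖b x‖) ⁻¹' (Iic r)) :=
      (hb.continuousOn.norm.mono hρs).preimage_isClosed_of_isClosed isClosed_closedBall isClosed_Iic
    exact (isCompact_closedBall (0 : ℂ) ρ).of_isClosed_subset h2 inter_subset_left
  have hBc : IsCompact (g '' {x : ℂ | ‖x‖ ≤ ρ ∧ ‖b x‖ ≤ r}) :=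
    hLc.image_of_continuousOn (hg.continuousOn.mono fun x hx => hρs (mem_closedBall_zero_iff.2 hx.1))
  have hBcl : closure (g '' {x : ℂ | ‖x‖ < 1 ∧ ‖b x‖ < r}) ⊆ g '' {x : ℂ | ‖x‖ ≤ ρ ∧ ‖b x‖ ≤ r} :=
    closure_minimal (image_mono fun x hx => ⟨hρ x hx.1 hx.2.le, hx.2.le⟩) hBc.isClosed
  have hBf : ∀ p ∈ frontier (g '' {x : ℂ | ‖x‖ < 1 ∧ ‖b x‖ < r}), ∃ y : ℂ, ‖y‖ < 1 ∧ ‖b y‖ = r ∧ g y = p := by
    intro p hp
    rw [hBo.frontier_eq] at hp
    obtain ⟨y, hy, rfl⟩ := hBcl hp.1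
    have hy1 : ‖y‖ < 1 := hy.1.trans_lt hρ1
    refine ⟨y, hy1, le_antisymm hy.2 ?_, rfl⟩
    by_contra h3
    exact hp.2 ⟨y, ⟨hy1, not_le.1 h3⟩, rfl⟩
  by_cases hS : Disjoint (g0 '' sphere 0 r) (frontier (g '' {x : ℂ | ‖x‖ < 1 ∧ ‖b x‖ < r}))
  · exfalso
    have hSp : IsPreconnected (g0 '' sphere 0 r) := by
      refine IsPreconnected.image ?_ g0 (hg0.continuousOn.mono (sphere_subset_closedBall.trans hcl0))
      exact isPreconnected_sphere (by
        rw [Complex.rank_real_complex]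
        norm_num) 0 r
    by_cases hne : (g0 '' sphere 0 r ∩ g '' {x : ℂ | ‖x‖ < 1 ∧ ‖b x‖ < r}).Nonempty
    · have hSB := pre_sub hSp hBo hS hne
      refine hn1 ?_
      have hAb : Bornology.IsBounded (g0 '' ball 0 r) := hAc.isBounded.subset (image_mono ball_subset_closedBall)
      have hfull : Pool.Agent.H56.TH.Full (g '' ball 0 1) :=
        Pool.Agent.H81.RW.img_full hg hi subset_rfl (Pool.Agent.H56.TH.full_ball 0 1)
      have hAW : g0 '' ball 0 r ⊆ g '' ball 0 1 :=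
        hfull _ hAo hAb ((hAf.trans hSB).trans (image_mono hTs))
      have hinv := Pool.Agent.H39.HO.inj_hol isOpen_ball hg hi
      have hinvm : ∀ p ∈ g '' ball 0 1, Function.invFunOn g (ball 0 1) p ∈ ball (0 : ℂ) 1 ∧
          g (Function.invFunOn g (ball 0 1) p) = p := fun p hp =>
        ⟨Function.invFunOn_mem hp, Function.invFunOn_eq hp⟩
      have hgo : IsOpen (g '' ball 0 1) := Pool.Agent.H39.HO.inj_open isOpen_ball hg hi subset_rfl isOpen_ball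
      have hh : DifferentiableOn ℂ (fun p => b (Function.invFunOn g (ball 0 1) p)) (g '' ball 0 1) :=
        hb.comp hinv fun p hp => (hinvm p hp).1
      have hSc : IsCompact (g0 '' sphere 0 r) :=
        (isCompact_sphere 0 r).image_of_continuousOn (hg0.continuousOn.mono (sphere_subset_closedBall.trans hcl0))
      have hSne : (g0 '' sphere (0 : ℂ) r).Nonempty := by
        refine Set.Nonempty.image _ ⟨(r : ℂ), ?_⟩
        rw [mem_sphere_zero_iff_norm, Complex.norm_real, Real.norm_of_nonneg hr0.le]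
      have hSW : g0 '' sphere 0 r ⊆ g '' ball 0 1 := hSB.trans (image_mono hTs)
      obtain ⟨q, hq, hmax⟩ := hSc.exists_isMaxOn hSne (hh.continuousOn.norm.mono hSW)
      have hval : ∀ p ∈ g '' {x : ℂ | ‖x‖ < 1 ∧ ‖b x‖ < r}, ‖b (Function.invFunOn g (ball 0 1) p)‖ < r := by
        rintro p ⟨x, hx, rfl⟩
        have h1 : Function.invFunOn g (ball 0 1) (g x) = x := by
          have h2 := hinvm (g x) (mem_image_of_mem g (hTs hx))
          exact hi h2.1 (hTs hx) h2.2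
        rw [h1]
        exact hx.2
      have hclA : closure (g0 '' ball 0 r) ⊆ g '' ball 0 1 := by
        rw [closure_eq_self_union_frontier]
        exact union_subset hAW (hAf.trans hSW)
      have hdc : DiffContOnCl ℂ (fun p => b (Function.invFunOn g (ball 0 1) p)) (g0 '' ball 0 r) :=
        ⟨hh.mono hAW, hh.continuousOn.mono hclA⟩
      intro p hp
      have h4 : ‖b (Function.invFunOn g (ball 0 1) p)‖ ≤ ‖b (Function.invFunOn g (ball 0 1) q)‖ :=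
        Complex.norm_le_of_forall_mem_frontier_norm_le hAb hdc (fun z hz => hmax (hAf hz)) (subset_closure hp)
      have h5 := hinvm p (hAW hp)
      exact ⟨_, ⟨mem_ball_zero_iff.1 h5.1, h4.trans_lt (hval q (hSB hq))⟩, h5.2⟩
    · refine hn2 ?_
      have hBp : IsPreconnected (g '' {x : ℂ | ‖x‖ < 1 ∧ ‖b x‖ < r}) := hT.image g (hg.continuousOn.mono hTs)
      refine pre_sub hBp hAo ?_ ⟨g 0, ⟨0, ⟨by simp, hb0⟩, rfl⟩, ⟨0, mem_ball_self hr0, h00⟩⟩
      rw [Set.disjoint_left]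
      intro p hp hpf
      exact hne ⟨p, hAf hpf, hp⟩
  · rw [Set.not_disjoint_iff] at hS
    obtain ⟨p, ⟨x, hx, rfl⟩, hp⟩ := hS
    obtain ⟨y, hy1, hy2, hy3⟩ := hBf _ hp
    exact ⟨x, y, mem_sphere_zero_iff_norm.1 hx, hy1, hy2, hy3⟩

end Pool.Agent.H3.SZ
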